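import Pool.Agent.P8H50.NK.Stm4

/-! # Project NK, package GNM: the numbers -/

set_option autoImplicit false
set_option linter.all false

namespace Pool.Agent.P8H76.NK

open Pool.Agent.P8H50.NK

theorem gap {n q t : ℕ} {E S ρ M : ℝ} (hM : 0 < M) (hn : 1 ≤ n) (hnt : n ≤ t) (htq : 2 * t < q)
    (hρM : ρ < M)
    (h1 : (n : ℝ) * (2 * t + 1 - n) * E ≤ 2 * ρ * (q - (2 * t + 1 - n)))
    (h2 : ((n : ℝ) + 1) * (q - (2 * t - n + 1)) / (2 * t - n + 1) ≤ S - (n + 1)) :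
    0 < S - E / M - (n + 1) := by
  have hn' : (1 : ℝ) ≤ n := by exact_mod_cast hn
  have hnt' : (n : ℝ) ≤ t := by exact_mod_cast hnt
  have htq' : (2 : ℝ) * t + 1 ≤ q := by exact_mod_cast htq
  set u : ℝ := 2 * t - n + 1 with hu
  have hu0 : 0 < u := by rw [hu]; linarith
  set Q : ℝ := q - u with hQ
  have hQ0 : 0 < Q := by rw [hQ, hu]; linarith
  have e1 : (2 : ℝ) * t + 1 - n = u := by rw [hu]; ring
  rw [e1] at h1
  have h3 : (n : ℝ) * u * E < 2 * M * Q := by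
    refine lt_of_le_of_lt h1 ?_
    have : 2 * ρ * Q < 2 * M * Q := by
      have := mul_lt_mul_of_pos_right hρM hQ0
      linarith
    exact this
  have h4 : E / M < ((n : ℝ) + 1) * Q / u := by
    rw [div_lt_div_iff₀ hM hu0]
    have h5 : 2 * (M * Q) ≤ (n : ℝ) * ((n : ℝ) + 1) * (M * Q) := by
      apply mul_le_mul_of_nonneg_right _ (mul_pos hM hQ0).le
      nlinarith
    have h6 : (n : ℝ) * (E * u) < n * (((n : ℝ) + 1) * Q * M) := by nlinarith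
    exact lt_of_mul_lt_mul_left h6 (by linarith)
  linarith

theorem gnm : S_GNM := by
  intro s n q t e' M ω ρ hM hn hnt hρ hρM h1 h2
  have hM0 : (0 : ℝ) < M := by exact_mod_cast hM
  have hg : ∀ j, 0 < ∑ l, ω j l - (∑ l, (e' j l : ℝ)) / M - (n j + 1) := by
    intro j
    refine gap hM0 (hn j) (hnt j).1 (hnt j).2 ?_ (h1 j) (h2 j)
    exact lt_of_le_of_lt (Finset.single_le_sum (fun i _ => hρ i) (Finset.mem_univ j)) hρM
  obtain ⟨N, hN1, hN⟩ : ∃ N : ℕ, 1 ≤ N ∧ ∀ j, (q j : ℝ) + 1 ≤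
      N * (∑ l, ω j l - (∑ l, (e' j l : ℝ)) / M - (n j + 1)) := by
    refine ⟨1 + ∑ j, ⌈((q j : ℝ) + 1) / (∑ l, ω j l - (∑ l, (e' j l : ℝ)) / M - (n j + 1))⌉₊,
      Nat.le_add_right _ _, fun j => ?_⟩
    rw [← div_le_iff₀ (hg j)]
    refine (Nat.le_ceil _).trans ?_
    have := Finset.single_le_sum (f := fun j =>
      ⌈((q j : ℝ) + 1) / (∑ l, ω j l - (∑ l, (e' j l : ℝ)) / M - (n j + 1))⌉₊)
      (fun i _ => Nat.zero_le _) (Finset.mem_univ j)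
    exact_mod_cast this.trans (Nat.le_add_left _ _)
  have hs : ∀ j, ((n j : ℝ) + 1) * N + 1 ≤
      ((∑ l, ⌊(N : ℝ) * (ω j l - e' j l / M)⌋ : ℤ) : ℝ) := by
    intro j
    have h3 : ∑ l : Fin (q j), ((N : ℝ) * (ω j l - e' j l / M) - 1) ≤
        ∑ l, ((⌊(N : ℝ) * (ω j l - e' j l / M)⌋ : ℤ) : ℝ) :=
      Finset.sum_le_sum fun l _ => (Int.sub_one_lt_floor _).le
    rw [Finset.sum_sub_distrib, ← Finset.mul_sum, Finset.sum_sub_distrib, ← Finset.sum_div] at h3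
    simp only [Finset.sum_const, Finset.card_univ, Fintype.card_fin, nsmul_eq_mul, mul_one] at h3
    push_cast
    have h4 := hN j
    nlinarith
  have hs' : ∀ j, ∃ d : ℕ, 1 ≤ d ∧ ∑ l, ⌊(N : ℝ) * (ω j l - e' j l / M)⌋ =
      ((n j : ℤ) + 1) * N + d := by
    intro j
    have h5 : ((n j : ℤ) + 1) * N + 1 ≤ ∑ l, ⌊(N : ℝ) * (ω j l - e' j l / M)⌋ := by
      exact_mod_cast hs j
    obtain ⟨d, hd⟩ := Int.eq_ofNat_of_zero_le (sub_nonneg.2 h5)
    refine ⟨d + 1, by omega, ?_⟩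
    push_cast
    linarith
  choose d hd1 hd using hs'
  refine ⟨N, fun j l => ⌊(N : ℝ) * (ω j l - e' j l / M)⌋, d, hN1, hd1, fun j l => Int.floor_le _,
    fun j => hd j⟩

end Pool.Agent.P8H76.NK
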